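import Mathlib
import Pool.Agent.helper50.MA.Spec1
import Pool.Agent.helper50.MA.SpecF
import Pool.Agent.helper50.MA.Spec2

/-!
# ma:G3, the local Poincaré-Lelong formula
-/

set_option autoImplicit false

open MeasureTheory Set Filter Topology Complex
open scoped ContDiff Real

namespace MAP

noncomputable section

/-- the regularised logarithm -/
def G3_l (ε : ℝ) (w : ℂ) : ℝ := (1 / 2) * Real.log (‖w‖ ^ 2 + ε)

lemma G3_l_smooth {ε : ℝ} (hε : 0 < ε) : ContDiff ℝ ∞ (G3_l ε) := by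
  unfold G3_l
  refine contDiff_const.mul (ContDiff.log ?_ ?_)
  · exact (contDiff_norm_sq ℝ).add contDiff_const
  · intro w
    positivity

lemma G3_fd_log (ε : ℝ) (w : ℂ) (hε : 0 < ε) :
    HasFDerivAt (G3_l ε) ((‖w‖ ^ 2 + ε)⁻¹ • innerSL ℝ w) w := by
  unfold G3_l
  have h1 : HasFDerivAt (fun x : ℂ => ‖x‖ ^ 2 + ε) (2 • (innerSL ℝ w)) w :=
    (hasStrictFDerivAt_norm_sq w).hasFDerivAt.add_const ε
  have hne : ‖w‖ ^ 2 + ε ≠ 0 := by positivity
  have h2 := (h1.log hne).const_mul (1 / 2 : ℝ)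
  refine h2.congr_fderiv ?_
  ext v
  simp only [smul_apply, nsmul_eq_mul, smul_eq_mul]
  push_cast
  ring

lemma G3_fd_eq (ε : ℝ) (hε : 0 < ε) :
    fderiv ℝ (G3_l ε) = fun w => (‖w‖ ^ 2 + ε)⁻¹ • innerSL ℝ w := by
  funext w
  exact (G3_fd_log ε w hε).fderiv

lemma G3_fd2 (ε : ℝ) (hε : 0 < ε) (w ξ η : ℂ) :
    fderiv ℝ (fderiv ℝ (G3_l ε)) w ξ η =
      (‖w‖ ^ 2 + ε)⁻¹ * inner ℝ ξ η - 2 * (‖w‖ ^ 2 + ε)⁻¹ ^ 2 * inner ℝ w ξ * inner ℝ w η := by
  have hs2 : ContDiff ℝ ∞ (fderiv ℝ (G3_l ε)) := (G3_l_smooth hε).fderiv_right (by simp)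
  have h0 : HasFDerivAt (fderiv ℝ (G3_l ε)) (fderiv ℝ (fderiv ℝ (G3_l ε)) w) w :=
    ((hs2.differentiable (by simp)) w).hasFDerivAt
  have h01 : HasFDerivAt (fun x => fderiv ℝ (G3_l ε) x η)
      ((fderiv ℝ (fderiv ℝ (G3_l ε)) w).flip η) w := by
    have := h0.clm_apply (hasFDerivAt_const η w)
    refine this.congr_fderiv ?_
    ext v
    simp
  have h02 : (fun x => fderiv ℝ (G3_l ε) x η) = fun x => (‖x‖ ^ 2 + ε)⁻¹ * inner ℝ x η := by
    funext x
    rw [G3_fd_eq ε hε]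
    simp
  rw [h02] at h01
  have hne : ‖w‖ ^ 2 + ε ≠ 0 := by positivity
  have h1 : HasFDerivAt (fun x : ℂ => ‖x‖ ^ 2 + ε) (2 • (innerSL ℝ w)) w :=
    (hasStrictFDerivAt_norm_sq w).hasFDerivAt.add_const ε
  have h2 : HasFDerivAt (fun x : ℂ => (‖x‖ ^ 2 + ε)⁻¹)
      ((-((‖w‖ ^ 2 + ε) ^ 2)⁻¹) • (2 • (innerSL ℝ w) : ℂ →L[ℝ] ℝ)) w :=
    (hasDerivAt_inv hne).comp_hasFDerivAt w h1
  have h3 : HasFDerivAt (fun x : ℂ => (inner ℝ x η : ℝ)) (innerSL ℝ η) w := by
    have : (fun x : ℂ => (inner ℝ x η : ℝ)) = fun x => innerSL ℝ η x := by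
      funext x
      simp [real_inner_comm]
    rw [this]
    exact (innerSL ℝ η).hasFDerivAt
  have h5 := (h2.mul h3).unique h01
  have h6 := congrArg (fun L : ℂ →L[ℝ] ℝ => L ξ) h5
  simp only [add_apply, smul_apply, innerSL_apply_apply, smul_eq_mul, nsmul_eq_mul,
    ContinuousLinearMap.flip_apply] at h6
  rw [← h6, real_inner_comm ξ η, inv_pow]
  push_cast
  ring

/-- the function on `ℂ × ℂ` -/
def G3_L (ε : ℝ) (y : C2) : ℝ := G3_l ε y.2

lemma G3_L_smooth {ε : ℝ} (hε : 0 < ε) : ContDiff ℝ ∞ (G3_L ε) :=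
  (G3_l_smooth hε).comp contDiff_snd

lemma G3_D2 (ε : ℝ) (hε : 0 < ε) (y ξ η : C2) :
    D2 (G3_L ε) y ξ η = fderiv ℝ (fderiv ℝ (G3_l ε)) y.2 ξ.2 η.2 := by
  have hs := G3_l_smooth hε
  have h1 : fderiv ℝ (G3_L ε) = fun y : C2 =>
      (fderiv ℝ (G3_l ε) y.2).comp (ContinuousLinearMap.snd ℝ ℂ ℂ) := by
    funext y
    have : HasFDerivAt (G3_L ε) ((fderiv ℝ (G3_l ε) y.2).comp (ContinuousLinearMap.snd ℝ ℂ ℂ)) y :=
      ((hs.differentiable (by simp)) y.2).hasFDerivAt.comp y hasFDerivAt_snd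
    exact this.fderiv
  unfold D2
  rw [h1]
  have hs2 : ContDiff ℝ ∞ (fderiv ℝ (G3_l ε)) := hs.fderiv_right (by simp)
  have h2 : HasFDerivAt (fun y : C2 => fderiv ℝ (G3_l ε) y.2)
      ((fderiv ℝ (fderiv ℝ (G3_l ε)) y.2).comp (ContinuousLinearMap.snd ℝ ℂ ℂ)) y :=
    ((hs2.differentiable (by simp)) y.2).hasFDerivAt.comp y hasFDerivAt_snd
  have h3 := (h2.clm_comp (hasFDerivAt_const (ContinuousLinearMap.snd ℝ ℂ ℂ) y)).fderiv
  rw [h3]
  simp

lemma G3_hA (ε : ℝ) (hε : 0 < ε) (y : C2) : hA (G3_L ε) y = 0 := by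
  simp [hA, lap, G3_D2 ε hε, e1]

lemma G3_hB (ε : ℝ) (hε : 0 < ε) (y : C2) : hB (G3_L ε) y = 0 := by
  simp [hB, G3_D2 ε hε, e1]

lemma G3_hB' (ε : ℝ) (hε : 0 < ε) (y : C2) : hB' (G3_L ε) y = 0 := by
  simp [hB', G3_D2 ε hε, e1]

lemma G3_hC (ε : ℝ) (hε : 0 < ε) (y : C2) :
    hC (G3_L ε) y = 2 * ε * ((‖y.2‖ ^ 2 + ε)⁻¹) ^ 2 := by
  have hne : ‖y.2‖ ^ 2 + ε ≠ 0 := by positivity
  have hn : ‖y.2‖ ^ 2 = y.2.re ^ 2 + y.2.im ^ 2 := by
    rw [Complex.sq_norm, Complex.normSq_apply]; ring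
  have h1 : hC (G3_L ε) y = 2 * (‖y.2‖ ^ 2 + ε)⁻¹ -
      2 * ((‖y.2‖ ^ 2 + ε)⁻¹) ^ 2 * (y.2.re ^ 2 + y.2.im ^ 2) := by
    simp only [hC, lap, G3_D2 ε hε, e2, G3_fd2 ε hε, Complex.inner]
    simp
    ring
  rw [h1, ← hn]
  field_simp
  ring

/-- the kernel -/
def G3_k (w : ℂ) : ℝ := π⁻¹ * ((1 + ‖w‖ ^ 2)⁻¹) ^ 2

lemma G3_k_integral : ∫ w : ℂ, G3_k w = 1 := by
  have h1 := MeasureTheory.integral_fun_norm_addHaar (volume : Measure ℂ)
    (fun r : ℝ => π⁻¹ * ((1 + r ^ 2)⁻¹) ^ 2)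
  have h2 : ∫ w : ℂ, G3_k w = ∫ w : ℂ, (fun r : ℝ => π⁻¹ * ((1 + r ^ 2)⁻¹) ^ 2) ‖w‖ := rfl
  rw [h2, h1]
  have h3 : ∫ y in Ioi (0 : ℝ), y ^ (Module.finrank ℝ ℂ - 1) • (π⁻¹ * ((1 + y ^ 2)⁻¹) ^ 2) =
      π⁻¹ / 2 := by
    have h4 : ∀ x ∈ Ici (0 : ℝ), HasDerivAt (fun y : ℝ => -(π⁻¹ / 2) * (1 + y ^ 2)⁻¹)
        (x ^ (Module.finrank ℝ ℂ - 1) • (π⁻¹ * ((1 + x ^ 2)⁻¹) ^ 2)) x := by
      intro x _
      have hne : (1 + x ^ 2) ≠ 0 := by positivity
      have h5 : HasDerivAt (fun y : ℝ => 1 + y ^ 2) (2 * x) x := by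
        simpa using (hasDerivAt_pow 2 x).const_add 1
      have h6 := (h5.inv hne).const_mul (-(π⁻¹ / 2))
      refine h6.congr_deriv ?_
      simp only [Complex.finrank_real_complex, smul_eq_mul]
      field_simp
      norm_num
    have h7 : Tendsto (fun y : ℝ => -(π⁻¹ / 2) * (1 + y ^ 2)⁻¹) atTop (𝓝 0) := by
      have : Tendsto (fun y : ℝ => (1 + y ^ 2)⁻¹) atTop (𝓝 0) := by
        refine tendsto_inv_atTop_zero.comp ?_
        exact tendsto_atTop_add_const_left _ _ (tendsto_pow_atTop (by norm_num))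
      simpa using this.const_mul (-(π⁻¹ / 2))
    rw [MeasureTheory.integral_Ioi_of_hasDerivAt_of_nonneg' h4 ?_ h7]
    · simp
    · intro x hx
      have : (0 : ℝ) < x := hx
      simp only [smul_eq_mul]
      positivity
  rw [h3]
  have h8 : (volume : Measure ℂ).real (Metric.ball 0 1) = π := by
    rw [Measure.real, Complex.volume_ball]
    simp
  rw [h8]
  simp only [Complex.finrank_real_complex, smul_eq_mul, nsmul_eq_mul]
  have := Real.pi_pos
  field_simp
  norm_num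

lemma G3_k_decay : Tendsto (fun w : ℂ => ‖w‖ ^ Module.finrank ℝ ℂ * G3_k w) (Bornology.cobounded ℂ) (𝓝 0) := by
  have h1 : Tendsto (fun w : ℂ => π⁻¹ * (1 + ‖w‖ ^ 2)⁻¹) (Bornology.cobounded ℂ) (𝓝 0) := by
    have h2 : Tendsto (fun y : ℝ => π⁻¹ * (1 + y ^ 2)⁻¹) atTop (𝓝 0) := by
      have : Tendsto (fun y : ℝ => (1 + y ^ 2)⁻¹) atTop (𝓝 0) := by
        refine tendsto_inv_atTop_zero.comp ?_
        exact tendsto_atTop_add_const_left _ _ (tendsto_pow_atTop (by norm_num))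
      simpa using this.const_mul (π⁻¹)
    exact h2.comp tendsto_norm_cobounded_atTop
  refine squeeze_zero (fun w => by unfold G3_k; positivity) (fun w => ?_) h1
  unfold G3_k
  simp only [Complex.finrank_real_complex]
  have h3 : 0 < 1 + ‖w‖ ^ 2 := by positivity
  have h4 : ‖w‖ ^ 2 * (1 + ‖w‖ ^ 2)⁻¹ ≤ 1 := by
    rw [← div_eq_mul_inv, div_le_one h3]
    linarith
  have h5 : 0 ≤ π⁻¹ * (1 + ‖w‖ ^ 2)⁻¹ := by positivity
  calc ‖w‖ ^ 2 * (π⁻¹ * ((1 + ‖w‖ ^ 2)⁻¹) ^ 2)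
      = (‖w‖ ^ 2 * (1 + ‖w‖ ^ 2)⁻¹) * (π⁻¹ * (1 + ‖w‖ ^ 2)⁻¹) := by ring
    _ ≤ 1 * (π⁻¹ * (1 + ‖w‖ ^ 2)⁻¹) := by gcongr
    _ = _ := by ring

/-- `log ‖w‖` is integrable on bounded sets -/
lemma G3_log_int (R : ℝ) :
    Integrable (fun w : ℂ => (Metric.closedBall (0 : ℂ) R).indicator (fun w => Real.log ‖w‖) w) := by
  have h1 : (fun w : ℂ => (Metric.closedBall (0 : ℂ) R).indicator (fun w => Real.log ‖w‖) w) =
      fun w : ℂ => (fun r : ℝ => (Iic R).indicator Real.log r) ‖w‖ := by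
    funext w
    by_cases hw : ‖w‖ ≤ R
    · rw [indicator_of_mem (by simpa using hw)]
      simp only
      rw [indicator_of_mem (show ‖w‖ ∈ Iic R from hw)]
    · rw [indicator_of_notMem (by simpa using hw)]
      simp only
      rw [indicator_of_notMem (show ‖w‖ ∉ Iic R from hw)]
  rw [h1, MeasureTheory.integrable_fun_norm_addHaar]
  simp only [Complex.finrank_real_complex]
  have h2 : IntegrableOn (fun y : ℝ => y * Real.log y) (Icc 0 R) := by
    refine ContinuousOn.integrableOn_Icc ?_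
    exact Real.continuous_mul_log.continuousOn
  have h3 : Integrable ((Icc 0 R).indicator (fun y : ℝ => y * Real.log y)) :=
    (integrable_indicator_iff measurableSet_Icc).2 h2
  refine (h3.integrableOn (s := Ioi 0)).congr_fun ?_ measurableSet_Ioi
  intro y hy
  have hy' : (0 : ℝ) < y := hy
  by_cases hyR : y ≤ R
  · simp only
    rw [indicator_of_mem (show y ∈ Icc 0 R from ⟨hy'.le, hyR⟩),
      indicator_of_mem (show y ∈ Iic R from hyR)]
    simp
  · simp only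
    rw [indicator_of_notMem (show y ∉ Icc 0 R from fun h => hyR h.2),
      indicator_of_notMem (show y ∉ Iic R from fun h => hyR h)]
    simp

lemma G3_D2_cont {u : C2 → ℝ} {x : C2} (hu : ContDiffAt ℝ 2 u x) (ξ η : C2) :
    ContinuousAt (fun y => D2 u y ξ η) x := by
  unfold D2
  have h1 : ContDiffAt ℝ 1 (fderiv ℝ u) x := hu.fderiv_right (by norm_num)
  have h2 : ContDiffAt ℝ 0 (fderiv ℝ (fderiv ℝ u)) x := h1.fderiv_right (by norm_num)
  have h3 : ContinuousAt (fderiv ℝ (fderiv ℝ u)) x := h2.continuousAt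
  have h4 : ContinuousAt (fun y => fderiv ℝ (fderiv ℝ u) y ξ) x :=
    h3.clm_apply continuousAt_const
  exact h4.clm_apply continuousAt_const

lemma G3_D2_zero {u : C2 → ℝ} {x : C2} (hx : x ∉ tsupport u) (ξ η : C2) : D2 u x ξ η = 0 := by
  have h1 : u =ᶠ[𝓝 x] fun _ => (0 : ℝ) := notMem_tsupport_iff_eventuallyEq.1 hx
  have h2 : fderiv ℝ u =ᶠ[𝓝 x] fderiv ℝ (fun _ => (0 : ℝ)) := h1.fderiv
  have h3 : fderiv ℝ (fderiv ℝ u) x = fderiv ℝ (fderiv ℝ (fun _ : C2 => (0 : ℝ))) x :=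
    Filter.EventuallyEq.fderiv_eq h2
  unfold D2
  rw [h3]
  simp

lemma G3_dens_zero {u v : C2 → ℝ} {x : C2} (hx : x ∉ tsupport u) : dens u v x = 0 := by
  simp [dens, hA, hB, hB', hC, lap, G3_D2_zero hx]

lemma G3_dens_cont {U : Set C2} {h ρ : C2 → ℝ} (hU : IsOpen U) (hh : ContDiff ℝ ∞ h)
    (hhs : tsupport h ⊆ U) (hρ : ContDiffOn ℝ ∞ ρ U) : Continuous (dens h ρ) := by
  rw [continuous_iff_continuousAt]
  intro x
  by_cases hx : x ∈ tsupport h
  · have h1 : ContDiffAt ℝ 2 h x := (hh.of_le ENat.LEInfty.out).contDiffAt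
    have h2 : ContDiffAt ℝ 2 ρ x := (hρ.contDiffAt (hU.mem_nhds (hhs hx))).of_le ENat.LEInfty.out
    unfold dens hA hB hB' hC lap
    have a := G3_D2_cont h1
    have b := G3_D2_cont h2
    fun_prop (disch := assumption)
  · have h1 : (tsupport h)ᶜ ∈ 𝓝 x := (isClosed_tsupport h).isOpen_compl.mem_nhds hx
    have h2 : dens h ρ =ᶠ[𝓝 x] fun _ => (0 : ℝ) := by
      filter_upwards [h1] with y hy
      exact G3_dens_zero hy
    exact continuousAt_const.congr h2.symm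

lemma G3_F_cont {U : Set C2} {h ρ : C2 → ℝ} (hU : IsOpen U) (hh : ContDiff ℝ ∞ h)
    (hhs : tsupport h ⊆ U) (hρ : ContDiffOn ℝ ∞ ρ U) :
    Continuous (fun y => h y * (hA ρ y / (2 * π))) := by
  rw [continuous_iff_continuousAt]
  intro x
  by_cases hx : x ∈ tsupport h
  · have h2 : ContDiffAt ℝ 2 ρ x := (hρ.contDiffAt (hU.mem_nhds (hhs hx))).of_le ENat.LEInfty.out
    refine hh.continuous.continuousAt.mul (ContinuousAt.div_const ?_ _)
    unfold hA lap
    exact (G3_D2_cont h2 _ _).add (G3_D2_cont h2 _ _)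
  · have h1 : (tsupport h)ᶜ ∈ 𝓝 x := (isClosed_tsupport h).isOpen_compl.mem_nhds hx
    have h2 : (fun y => h y * (hA ρ y / (2 * π))) =ᶠ[𝓝 x] fun _ => (0 : ℝ) := by
      filter_upwards [h1] with y hy
      rw [image_eq_zero_of_notMem_tsupport hy, zero_mul]
    exact continuousAt_const.congr h2.symm

lemma G3_snd_null : ∀ᵐ y : C2, y.2 ≠ 0 := by
  rw [ae_iff]
  have : {y : C2 | ¬ y.2 ≠ 0} = (univ : Set ℂ) ×ˢ ({0} : Set ℂ) := by
    ext y; simp
  rw [this, Measure.volume_eq_prod, Measure.prod_prod]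
  simp

/-- bound used in the dominated convergence -/
lemma G3_l_bound {R ε : ℝ} {w : ℂ} (hw : w ≠ 0) (hε : 0 < ε) (hε1 : ε ≤ 1) (hR : ‖w‖ ≤ R) :
    |G3_l ε w| ≤ |Real.log ‖w‖| + R ^ 2 := by
  have hn : 0 < ‖w‖ := norm_pos_iff.2 hw
  have h1 : Real.log ‖w‖ = (1 / 2) * Real.log (‖w‖ ^ 2) := by
    rw [Real.log_pow]; push_cast; ring
  have h2 : Real.log (‖w‖ ^ 2) ≤ Real.log (‖w‖ ^ 2 + ε) :=
    Real.log_le_log (by positivity) (by linarith)
  have h3 : Real.log (‖w‖ ^ 2 + ε) ≤ ‖w‖ ^ 2 := by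
    have := Real.log_le_sub_one_of_pos (show 0 < ‖w‖ ^ 2 + ε by positivity)
    linarith
  have h4 : ‖w‖ ^ 2 ≤ R ^ 2 := by gcongr
  unfold G3_l
  rw [abs_le]
  constructor
  · have := neg_abs_le (Real.log ‖w‖)
    nlinarith [sq_nonneg R]
  · have := abs_nonneg (Real.log ‖w‖)
    nlinarith [sq_nonneg R]

theorem G3 (h7 : B7_stmt) : G3_stmt := by
  intro U h ρ hU hh hhc hhs hρ
  have hDc := G3_dens_cont hU hh hhs hρ
  have hFc := G3_F_cont hU hh hhs hρ
  have hDs : HasCompactSupport (dens h ρ) := by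
    refine HasCompactSupport.intro hhc (fun x hx => ?_)
    exact G3_dens_zero hx
  have hFs : HasCompactSupport (fun y => h y * (hA ρ y / (2 * π))) := by
    refine HasCompactSupport.intro hhc (fun x hx => ?_)
    rw [image_eq_zero_of_notMem_tsupport hx, zero_mul]
  obtain ⟨B, hB⟩ := hDs.exists_bound_of_continuous hDc
  obtain ⟨R, hR⟩ := hhc.isCompact.isBounded.subset_closedBall (0 : C2)
  have hB0 : 0 ≤ B := (norm_nonneg _).trans (hB 0)
  have hmem : ∀ y ∈ tsupport h, ‖y.1‖ ≤ R ∧ ‖y.2‖ ≤ R := by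
    intro y hy
    have := hR hy
    rw [mem_closedBall_zero_iff] at this
    exact ⟨(norm_fst_le y).trans this, (norm_snd_le y).trans this⟩
  -- the dominating function
  let a : ℂ → ℝ := fun z => (Metric.closedBall (0 : ℂ) R).indicator (fun _ => (1 : ℝ)) z
  let b : ℂ → ℝ := fun w => (Metric.closedBall (0 : ℂ) R).indicator (fun w => |Real.log ‖w‖| + R ^ 2) w
  have ha : Integrable a := by
    refine (integrable_indicator_iff Metric.isClosed_closedBall.measurableSet).2 ?_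
    exact integrableOn_const (isCompact_closedBall (0:ℂ) R).measure_ne_top
  have hb : Integrable b := by
    have h1 : b = fun w => |(Metric.closedBall (0 : ℂ) R).indicator (fun w => Real.log ‖w‖) w| +
        R ^ 2 * a w := by
      funext w
      by_cases hw : w ∈ Metric.closedBall (0 : ℂ) R
      · simp [a, b, indicator_of_mem hw]
      · simp [a, b, indicator_of_notMem hw]
    rw [h1]
    exact (G3_log_int R).abs.add (ha.const_mul _)
  have hg : Integrable (fun y : C2 => B * (a y.1 * b y.2)) := by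
    rw [Measure.volume_eq_prod]
    exact (ha.mul_prod hb).const_mul B
  have hb0 : ∀ w, 0 ≤ b w := fun w => by
    simp only [b]
    refine indicator_nonneg (fun w _ => by positivity) w
  have ha0 : ∀ w, 0 ≤ a w := fun w => by
    simp only [a]
    refine indicator_nonneg (fun w _ => by positivity) w
  have hdom : ∀ (t : ℝ) (y : C2), (‖y.2‖ ≤ R → |t| ≤ |Real.log ‖y.2‖| + R ^ 2) →
      ‖t * dens h ρ y‖ ≤ B * (a y.1 * b y.2) := by
    intro t y ht
    by_cases hy : y ∈ tsupport h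
    · obtain ⟨h1, h2⟩ := hmem y hy
      have h3 : a y.1 = 1 := by
        simp only [a]
        rw [indicator_of_mem (by simpa using h1)]
      have h4 : b y.2 = |Real.log ‖y.2‖| + R ^ 2 := by
        simp only [b]
        rw [indicator_of_mem (by simpa using h2)]
      rw [h3, h4, norm_mul, Real.norm_eq_abs, one_mul, mul_comm]
      have := ht h2
      gcongr
      exact hB y
    · rw [G3_dens_zero hy, mul_zero, norm_zero]
      have := ha0 y.1
      have := hb0 y.2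
      positivity
  have hmeas : AEStronglyMeasurable (fun y : C2 => Real.log ‖y.2‖ * dens h ρ y) := by
    refine AEStronglyMeasurable.mul ?_ hDc.aestronglyMeasurable
    exact (Real.measurable_log.comp (measurable_snd.norm)).aestronglyMeasurable
  have hint : Integrable (fun y : C2 => Real.log ‖y.2‖ * dens h ρ y) := by
    refine hg.mono' hmeas (Filter.Eventually.of_forall fun y => ?_)
    exact hdom _ y (fun _ => by nlinarith [sq_nonneg R])
  refine ⟨hint, ?_⟩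
  -- left hand side
  have hL : Tendsto (fun c : ℝ => ∫ y : C2, G3_L ((c ^ 2)⁻¹) y * dens h ρ y) atTop
      (𝓝 (∫ y : C2, Real.log ‖y.2‖ * dens h ρ y)) := by
    refine tendsto_integral_filter_of_dominated_convergence (fun y : C2 => B * (a y.1 * b y.2))
      ?_ ?_ hg ?_
    · filter_upwards [Ioi_mem_atTop (0 : ℝ)] with c hc
      have hc' : (0 : ℝ) < c := hc
      have : 0 < (c ^ 2)⁻¹ := by positivity
      exact ((G3_L_smooth this).continuous.mul hDc).aestronglyMeasurable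
    · filter_upwards [Ioi_mem_atTop (1 : ℝ)] with c hc
      have hc' : (1 : ℝ) < c := hc
      have h1 : 0 < (c ^ 2)⁻¹ := by positivity
      have h2 : (c ^ 2)⁻¹ ≤ 1 := inv_le_one_of_one_le₀ (by nlinarith)
      filter_upwards [G3_snd_null] with y hy
      exact hdom _ y (fun hyR => G3_l_bound hy h1 h2 hyR)
    · filter_upwards [G3_snd_null] with y hy
      refine Tendsto.mul_const _ ?_
      have hn : 0 < ‖y.2‖ := norm_pos_iff.2 hy
      have h1 : Real.log ‖y.2‖ = (1 / 2) * Real.log (‖y.2‖ ^ 2 + 0) := by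
        rw [add_zero, Real.log_pow]; push_cast; ring
      rw [h1]
      have h2 : Tendsto (fun c : ℝ => (c ^ 2)⁻¹) atTop (𝓝 0) :=
        tendsto_inv_atTop_zero.comp (tendsto_pow_atTop (by norm_num))
      have h3 : Tendsto (fun c : ℝ => ‖y.2‖ ^ 2 + (c ^ 2)⁻¹) atTop (𝓝 (‖y.2‖ ^ 2 + 0)) :=
        h2.const_add _
      exact (h3.log (by positivity)).const_mul _
  -- right hand side
  let G : ℂ → ℝ := fun w => ∫ z : ℂ, h (z, w) * (hA ρ (z, w) / (2 * π))
  have hFint : Integrable (fun y : C2 => h y * (hA ρ y / (2 * π))) := hFc.integrable_of_hasCompactSupport hFs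
  have hGint : Integrable G := by
    have := hFint
    rw [Measure.volume_eq_prod] at this
    exact this.integral_prod_right
  have hGc : Continuous G := by
    have h1 : G = fun w => ∫ z in Metric.closedBall (0 : ℂ) R, h (z, w) * (hA ρ (z, w) / (2 * π)) := by
      funext w
      simp only [G]
      rw [← MeasureTheory.integral_indicator Metric.isClosed_closedBall.measurableSet]
      refine integral_congr_ae (Filter.Eventually.of_forall fun z => ?_)
      simp only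
      by_cases hz : z ∈ Metric.closedBall (0 : ℂ) R
      · rw [indicator_of_mem hz]
      · rw [indicator_of_notMem hz]
        have : (z, w) ∉ tsupport h := fun hy => hz (by simpa using (hmem _ hy).1)
        rw [image_eq_zero_of_notMem_tsupport this, zero_mul]
    rw [h1]
    refine continuous_parametric_integral_of_continuous (f := fun w z => h (z, w) * (hA ρ (z, w) / (2 * π)))
      ?_ (isCompact_closedBall _ _)
    exact hFc.comp continuous_swap
  have hRt := tendsto_integral_comp_smul_smul_of_integrable (μ := (volume : Measure ℂ)) (φ := G3_k)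
    (fun w => by unfold G3_k; positivity) G3_k_integral G3_k_decay hGint hGc.continuousAt
  have hEq : ∀ᶠ c : ℝ in atTop, ∫ y : C2, G3_L ((c ^ 2)⁻¹) y * dens h ρ y =
      ∫ w : ℂ, (c ^ Module.finrank ℝ ℂ * G3_k (c • w)) • G w := by
    filter_upwards [Ioi_mem_atTop (0 : ℝ)] with c hc
    have hc' : (0 : ℝ) < c := hc
    have hε : 0 < (c ^ 2)⁻¹ := by positivity
    have h1 := h7 U h ρ (G3_L ((c ^ 2)⁻¹)) hU hh hhc hhs hρ (G3_L_smooth hε).contDiffOn
    rw [h1]
    have h2 : ∀ y : C2, h y * dens (G3_L ((c ^ 2)⁻¹)) ρ y =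
        (c ^ Module.finrank ℝ ℂ * G3_k (c • y.2)) * (h y * (hA ρ y / (2 * π))) := by
      intro y
      unfold dens
      rw [G3_hA _ hε, G3_hB _ hε, G3_hB' _ hε, G3_hC _ hε]
      unfold G3_k
      simp only [Complex.finrank_real_complex, norm_smul, Real.norm_of_nonneg hc'.le]
      have h3 : ‖y.2‖ ^ 2 + (c ^ 2)⁻¹ ≠ 0 := by positivity
      have h4 : 1 + (c * ‖y.2‖) ^ 2 ≠ 0 := by positivity
      have h5 : (‖y.2‖ ^ 2 + (c ^ 2)⁻¹)⁻¹ = c ^ 2 * (1 + (c * ‖y.2‖) ^ 2)⁻¹ := by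
        rw [eq_comm, ← div_eq_mul_inv, div_eq_iff h4, eq_inv_mul_iff_mul_eq₀ h3]
        field_simp
        ring
      rw [h5]
      have := Real.pi_pos
      field_simp
      ring
    simp_rw [h2]
    have hcont : Continuous fun y : C2 => (c ^ Module.finrank ℝ ℂ * G3_k (c • y.2)) := by
      unfold G3_k
      refine continuous_const.mul (continuous_const.mul (Continuous.pow (Continuous.inv₀ ?_ ?_) _))
      · fun_prop
      · intro y
        positivity
    have hi : Integrable (fun y : C2 => (c ^ Module.finrank ℝ ℂ * G3_k (c • y.2)) *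
        (h y * (hA ρ y / (2 * π)))) :=
      (hcont.mul hFc).integrable_of_hasCompactSupport hFs.mul_left
    rw [Measure.volume_eq_prod] at hi ⊢
    rw [integral_prod_symm _ hi]
    refine integral_congr_ae (Filter.Eventually.of_forall fun w => ?_)
    simp only [G, smul_eq_mul]
    rw [← integral_const_mul]
  have := tendsto_nhds_unique (hL.congr' hEq) hRt
  rw [this]

end

end MAP
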