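import Mathlib
import Pool.Agent.helper50.MA.Spec2
import Pool.Agent.helper46.MA.B1

/-!
# ma:O1, the local obstacle problem
-/

set_option autoImplicit false

open MeasureTheory Set Filter Topology Complex
open scoped ContDiff Real

namespace MAP

noncomputable section

lemma O1_cont (c : C2) : Continuous fun x : C2 => nsq (x - c) :=
  B1aux.continuous_nsq.comp (continuous_id.sub continuous_const)

lemma O1_isOpen_bal (c : C2) (r : ℝ) : IsOpen (bal c r) :=
  isOpen_lt (O1_cont c) continuous_const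

lemma O1_isClosed_cbal (c : C2) (r : ℝ) : IsClosed (cbal c r) :=
  isClosed_le (O1_cont c) continuous_const

lemma O1_bal_sub (c : C2) (r : ℝ) : bal c r ⊆ cbal c r := fun x hx => by
  have : nsq (x - c) < r ^ 2 := hx
  exact this.le

lemma O1_sph_sub (c : C2) (r : ℝ) : sph c r ⊆ cbal c r := fun x hx => by
  have : nsq (x - c) = r ^ 2 := hx
  exact this.le

lemma O1_compact_cbal (c : C2) {r : ℝ} (hr : 0 < r) : IsCompact (cbal c r) := by
  refine (isCompact_closedBall c r).of_isClosed_subset (O1_isClosed_cbal c r) ?_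
  intro x hx
  have h1 : nsq (x - c) ≤ r ^ 2 := hx
  have h2 := B1aux.norm_sq_le_nsq (x - c)
  rw [Metric.mem_closedBall, dist_eq_norm]
  exact abs_le_of_sq_le_sq' (h2.trans h1) hr.le |>.2

/-- the translated competitor -/
lemma O1_shift (h1 : A1_stmt) (h7 : A7_stmt) (b o : C2 → ℝ) (c : C2) (r : ℝ) (v : C2 → ℝ)
    (hv : v ∈ Obs b o c r) (h : C2) (K : ℝ)
    (hb : ∀ x ∈ cbal c r, x + h ∈ sph c r → v (x + h) - K ≤ v x)
    (hs : ∀ x ∈ sph c r, x + h ∈ cbal c r → v (x + h) - K ≤ v x)
    (ho : ∀ x ∈ cbal c r, x + h ∈ cbal c r → v (x + h) - K ≤ o x) :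
    (fun x => if nsq (x + h - c) ≤ r ^ 2 then max (v x) (v (x + h) - K) else v x) ∈ Obs b o c r := by
  obtain ⟨hvc, hvp, hvo, hvb⟩ := hv
  set w : C2 → ℝ := fun x => if nsq (x + h - c) ≤ r ^ 2 then max (v x) (v (x + h) - K) else v x with hw
  have hw1 : ∀ x, nsq (x + h - c) ≤ r ^ 2 → w x = max (v x) (v (x + h) - K) := fun x hx => if_pos hx
  have hw2 : ∀ x ∈ cbal c r, r ^ 2 ≤ nsq (x + h - c) → w x = v x := by
    intro x hx0 hx
    rcases hx.eq_or_lt with h' | h'
    · rw [hw1 x h'.symm.le, max_eq_left (hb x hx0 h'.symm)]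
    · exact if_neg (not_le.mpr h')
  have hcs : Continuous fun x : C2 => nsq (x + h - c) :=
    (O1_cont c).comp (continuous_add_const h)
  have hcw : ContinuousOn w (cbal c r) := by
    set S : Set C2 := {x | nsq (x - c) ≤ r ^ 2 ∧ nsq (x + h - c) ≤ r ^ 2} with hS
    set T : Set C2 := {x | nsq (x - c) ≤ r ^ 2 ∧ r ^ 2 ≤ nsq (x + h - c)} with hT
    have hSc : IsClosed S :=
      (isClosed_le (O1_cont c) continuous_const).inter (isClosed_le hcs continuous_const)
    have hTc : IsClosed T :=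
      (isClosed_le (O1_cont c) continuous_const).inter (isClosed_le continuous_const hcs)
    have hun : cbal c r = S ∪ T := by
      ext x
      constructor
      · intro hx
        rcases le_total (nsq (x + h - c)) (r ^ 2) with h' | h'
        · exact Or.inl ⟨hx, h'⟩
        · exact Or.inr ⟨hx, h'⟩
      · rintro (h' | h')
        · exact h'.1
        · exact h'.1
    rw [hun]
    refine ContinuousOn.union_of_isClosed ?_ ?_ hSc hTc
    · have c1 : ContinuousOn v S := hvc.mono (fun x hx => hx.1)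
      have c2 : ContinuousOn (fun x => v (x + h)) S := by
        refine hvc.comp (continuous_add_const h).continuousOn ?_
        intro x hx
        exact hx.2
      have c3 : ContinuousOn (fun x => max (v x) (v (x + h) - K)) S :=
        ContinuousOn.sup c1 (c2.sub continuousOn_const)
      refine c3.congr ?_
      intro x hx
      exact hw1 x hx.2
    · have c1 : ContinuousOn v T := hvc.mono (fun x hx => hx.1)
      refine c1.congr ?_
      intro x hx
      exact hw2 x hx.1 hx.2
  refine ⟨hcw, ?_, ?_, ?_⟩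
  · set U' : Set C2 := {x | nsq (x - c) < r ^ 2 ∧ nsq (x + h - c) < r ^ 2} with hU'
    have hU'o : IsOpen U' :=
      (isOpen_lt (O1_cont c) continuous_const).inter (isOpen_lt hcs continuous_const)
    have hsub : U' ⊆ bal c r := fun x hx => hx.1
    have p1 : PshOn U' v := (h1 _ (O1_isOpen_bal c r) v v hvp hvp).2.2.2.2.1 U' hsub
    have p2 : PshOn {x | x + h ∈ bal c r} (fun x => v (x + h)) :=
      (h1 _ (O1_isOpen_bal c r) v v hvp hvp).2.2.2.2.2.2 h
    have ho2 : IsOpen {x : C2 | x + h ∈ bal c r} :=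
      (O1_isOpen_bal c r).preimage (continuous_add_const h)
    have p3 : PshOn {x | x + h ∈ bal c r} (fun x => v (x + h) + (-K)) :=
      (h1 _ ho2 _ _ p2 p2).2.2.2.1 (-K)
    have p4 : PshOn U' (fun x => v (x + h) + (-K)) := by
      refine (h1 _ ho2 _ _ p3 p3).2.2.2.2.1 U' ?_
      intro x hx
      exact hx.2
    have p5 := (h1 _ hU'o _ _ p1 p4).1
    have p6 : PshOn U' w := by
      refine (h1 _ hU'o _ _ p5 p5).2.2.2.2.2.1 w ?_
      intro x hx
      rw [hw1 x hx.2.le, sub_eq_add_neg]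
    refine h7 (bal c r) U' v w (O1_isOpen_bal c r) hU'o hsub hvp (hcw.mono (O1_bal_sub c r)) p6 ?_ ?_
    · intro x hx
      rcases le_total (nsq (x + h - c)) (r ^ 2) with h' | h'
      · rw [hw1 x h']; exact le_max_left _ _
      · rw [hw2 x (O1_bal_sub c r hx) h']
    · intro x hx hx'
      refine hw2 x (O1_bal_sub c r hx) ?_
      by_contra hcon
      exact hx' ⟨hx, not_le.mp hcon⟩
  · intro x hx
    rcases le_total (nsq (x + h - c)) (r ^ 2) with h' | h'
    · rw [hw1 x h']
      exact max_le (hvo x hx) (ho x hx h')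
    · rw [hw2 x hx h']
      exact hvo x hx
  · intro x hx
    have hvx := hvb x hx
    rcases le_total (nsq (x + h - c)) (r ^ 2) with h' | h'
    · rw [hw1 x h', max_eq_left (hs x hx h')]
      exact hvx
    · rw [hw2 x (O1_sph_sub c r hx) h']
      exact hvx

lemma O1_smooth (a : C2) : ContDiff ℝ 2 fun y : C2 => nsq (y - a) :=
  B1aux.contDiff_nsq.comp (contDiff_id.sub contDiff_const)

lemma O1_lap (a y ξ : C2) : lap (fun y : C2 => nsq (y - a)) y ξ = 4 * nsq ξ := by
  have h1 : fderiv ℝ (fun y : C2 => nsq (y - a)) = fun y => fderiv ℝ nsq (y - a) := by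
    funext y
    exact fderiv_comp_sub a
  have h2 : fderiv ℝ (fderiv ℝ (fun y : C2 => nsq (y - a))) y = fderiv ℝ (fderiv ℝ nsq) (y - a) := by
    rw [h1]
    exact fderiv_comp_sub a
  have h3 := B1aux.lap_nsq (y - a) ξ
  unfold lap D2 at h3 ⊢
  rw [h2]
  exact h3

lemma O1_barrier (h8 : A8_stmt) (b o : C2 → ℝ) (c : C2) (r : ℝ) (hr : 0 < r)
    (hbc : ContinuousOn b (cbal c r)) (ε : ℝ) (hε : 0 < ε) :
    ∃ η : ℝ, 0 < η ∧ ∀ v ∈ Obs b o c r, ∀ x0 ∈ sph c r, ∀ y ∈ cbal c r, ‖y - x0‖ < η →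
      v y ≤ b x0 + ε := by
  have hK := O1_compact_cbal c hr
  obtain ⟨B, hB⟩ := hK.exists_bound_of_continuousOn hbc
  have huc := hK.uniformContinuousOn_of_continuous hbc
  rw [Metric.uniformContinuousOn_iff] at huc
  obtain ⟨δ, hδ, hδb⟩ := huc (ε / 2) (by linarith)
  set C : ℝ := 2 * |B| / δ ^ 2 with hC
  have hC0 : 0 ≤ C := by positivity
  -- the quadratic part
  set q : C2 × C2 → ℝ := fun p => C * nsq (p.2 - p.1) + (C + 1) * (nsq (p.1 - c) - nsq (p.2 - c)) with hq
  have hqc : Continuous q := by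
    have := B1aux.continuous_nsq
    fun_prop
  have hquc := (hK.prod hK).uniformContinuousOn_of_continuous hqc.continuousOn
  rw [Metric.uniformContinuousOn_iff] at hquc
  obtain ⟨η, hη, hηq⟩ := hquc (ε / 2) (by linarith)
  refine ⟨η, hη, ?_⟩
  intro v hv x0 hx0 y hy hyx
  obtain ⟨hvc, hvp, hvo, hvb⟩ := hv
  have hx0c : x0 ∈ cbal c r := O1_sph_sub c r hx0
  have hx0r : nsq (x0 - c) = r ^ 2 := hx0
  set A : ℝ := b x0 + ε / 2 + C + (C + 1) * r ^ 2 - (C + 1) with hA'
  set s : C2 → ℝ := fun y => (fun y => (fun _ : C2 => A) y + C * ((fun y : C2 => nsq (y - x0)) y - 1)) y +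
    (-(C + 1)) * ((fun y : C2 => nsq (y - c)) y - 1) with hs
  have hsv : ∀ y, s y = b x0 + ε / 2 + (C * nsq (y - x0) + (C + 1) * (r ^ 2 - nsq (y - c))) := by
    intro y
    simp only [hs, hA']
    ring
  have hg1 : ContDiff ℝ 2 (fun y => (fun _ : C2 => A) y + C * ((fun y : C2 => nsq (y - x0)) y - 1)) :=
    contDiff_const.add (contDiff_const.mul ((O1_smooth x0).sub contDiff_const))
  have hss : ContDiff ℝ 2 s := hg1.add (contDiff_const.mul ((O1_smooth c).sub contDiff_const))
  have hlap : ∀ y ξ, lap s y ξ = -(4 * nsq ξ) := by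
    intro y ξ
    rw [hs, B1aux.lap_add_mul _ _ hg1 (O1_smooth c), B1aux.lap_add_mul _ _ contDiff_const (O1_smooth x0),
      O1_lap, O1_lap]
    have : lap (fun _ : C2 => A) y ξ = 0 := by
      simp [lap, D2]
    rw [this]
    ring
  have hle : ∀ x ∈ sph c r, v x ≤ s x := by
    intro x hx
    refine (hvb x hx).trans ?_
    rw [hsv]
    have hxr : nsq (x - c) = r ^ 2 := hx
    rw [hxr, sub_self, mul_zero, add_zero]
    by_cases hd : dist x x0 < δ
    · have h1 := hδb x (O1_sph_sub c r hx) x0 hx0c hd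
      rw [Real.dist_eq] at h1
      have h2 := (abs_lt.1 h1).2
      have h3 : 0 ≤ C * nsq (x - x0) := mul_nonneg hC0 (B1aux.nsq_nonneg _)
      linarith
    · have h1 : δ ≤ ‖x - x0‖ := by rw [← dist_eq_norm]; exact not_lt.1 hd
      have h2 : δ ^ 2 ≤ nsq (x - x0) := by
        refine le_trans ?_ (B1aux.norm_sq_le_nsq _)
        gcongr
      have h3 : 2 * |B| ≤ C * nsq (x - x0) := by
        have : C * δ ^ 2 = 2 * |B| := by
          rw [hC]; field_simp
        calc 2 * |B| = C * δ ^ 2 := this.symm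
          _ ≤ C * nsq (x - x0) := by gcongr
      have h4 := hB x (O1_sph_sub c r hx)
      have h5 := hB x0 hx0c
      rw [Real.norm_eq_abs] at h4 h5
      have h6 := (abs_le.1 h4).2
      have h7 := (abs_le.1 h5).1
      have h8 := le_abs_self B
      linarith
  have key := h8 c r v s hr hvp hvc hss.continuous.continuousOn hss.contDiffOn
    (fun x _ => ⟨e1, by rw [hlap]; simp [nsq, e1]⟩) hle y hy
  rw [hsv] at key
  have h9 := hηq (x0, y) ⟨hx0c, hy⟩ (x0, x0) ⟨hx0c, hx0c⟩ (by
    rw [Prod.dist_eq]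
    simpa [dist_eq_norm] using hyx)
  rw [Real.dist_eq] at h9
  have h10 := (abs_lt.1 h9).2
  simp only [hq, sub_self, hx0r] at h10
  have h11 : nsq (0 : C2) = 0 := by simp [nsq]
  rw [h11] at h10
  linarith

theorem O1 (h1 : A1_stmt) (h2 : A2_stmt) (h7 : A7_stmt) (h8 : A8_stmt) : O1_stmt := by
  intro b o c r hr hbc hbp hoc hbo
  have hK := O1_compact_cbal c hr
  let ι : Type := {v : C2 → ℝ // v ∈ Obs b o c r ∧ ∀ z ∈ cbal c r, b z ≤ v z}
  have hbO : b ∈ Obs b o c r := ⟨hbc, hbp, hbo, fun _ _ => le_rfl⟩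
  have : Nonempty ι := ⟨⟨b, hbO, fun _ _ => le_rfl⟩⟩
  set u : C2 → ℝ := fun y => ⨆ v : ι, v.1 y with hu
  have hbdd : ∀ y ∈ cbal c r, BddAbove (range fun v : ι => v.1 y) := by
    intro y hy
    refine ⟨o y, ?_⟩
    rintro _ ⟨v, rfl⟩
    exact v.2.1.2.2.1 y hy
  have hle : ∀ (v : ι), ∀ y ∈ cbal c r, v.1 y ≤ u y := fun v y hy => le_ciSup (hbdd y hy) v
  have hsup : ∀ y ∈ cbal c r, ∀ t : ℝ, (∀ v : ι, v.1 y ≤ t) → u y ≤ t := fun y _ t ht => ciSup_le ht
  -- equicontinuity
  have hequi : ∀ δ : ℝ, 0 < δ → ∃ η : ℝ, 0 < η ∧ ∀ y ∈ cbal c r, ∀ y' ∈ cbal c r, ‖y' - y‖ < η →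
      u y' - δ ≤ u y := by
    intro δ hδ
    have hucb := hK.uniformContinuousOn_of_continuous hbc
    have huco := hK.uniformContinuousOn_of_continuous hoc
    rw [Metric.uniformContinuousOn_iff] at hucb huco
    obtain ⟨η1, hη1, hb1⟩ := hucb δ hδ
    obtain ⟨η2, hη2, ho1⟩ := huco δ hδ
    obtain ⟨η3, hη3, hb3⟩ := O1_barrier h8 b o c r hr hbc δ hδ
    refine ⟨min η1 (min η2 η3), by positivity, ?_⟩
    intro y hy y' hy' hyy
    have hη1' : ‖y' - y‖ < η1 := hyy.trans_le (min_le_left _ _)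
    have hη2' : ‖y' - y‖ < η2 := hyy.trans_le ((min_le_right _ _).trans (min_le_left _ _))
    have hη3' : ‖y' - y‖ < η3 := hyy.trans_le ((min_le_right _ _).trans (min_le_right _ _))
    rw [sub_le_iff_le_add]
    refine hsup y' hy' _ (fun v => ?_)
    obtain ⟨v, hvO, hvb⟩ := v
    simp only
    set h : C2 := y' - y with hh
    have hsh := O1_shift h1 h7 b o c r v hvO h δ
      (by
        intro x hx hxh
        have a1 := hvO.2.2.2 (x + h) hxh
        have a2 := hb1 (x + h) (O1_sph_sub c r hxh) x hx (by rw [dist_eq_norm, add_sub_cancel_left]; exact hη1')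
        rw [Real.dist_eq] at a2
        have a3 := (abs_lt.1 a2).2
        have a4 := hvb x hx
        linarith)
      (by
        intro x hx hxh
        have a1 := hb3 v hvO x hx (x + h) hxh (by rw [add_sub_cancel_left]; exact hη3')
        have a4 := hvb x (O1_sph_sub c r hx)
        linarith)
      (by
        intro x hx hxh
        have a1 := hvO.2.2.1 (x + h) hxh
        have a2 := ho1 (x + h) hxh x hx (by rw [dist_eq_norm, add_sub_cancel_left]; exact hη2')
        rw [Real.dist_eq] at a2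
        have a3 := (abs_lt.1 a2).2
        linarith)
    set w : C2 → ℝ := fun x => if nsq (x + h - c) ≤ r ^ 2 then max (v x) (v (x + h) - δ) else v x with hw
    have hwv : ∀ x, v x ≤ w x := by
      intro x
      simp only [hw]
      split_ifs
      · exact le_max_left _ _
      · exact le_rfl
    have hwι := hle ⟨w, hsh, fun z hz => (hvb z hz).trans (hwv z)⟩ y hy
    simp only at hwι
    have hyh : y + h = y' := by rw [hh]; abel
    have hwy : w y = max (v y) (v y' - δ) := by
      simp only [hw]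
      rw [if_pos (by rw [hyh]; exact hy'), hyh]
    rw [hwy] at hwι
    have := (le_max_right (v y) (v y' - δ)).trans hwι
    linarith
  have huc : ContinuousOn u (cbal c r) := by
    rw [Metric.continuousOn_iff]
    intro y hy ε hε
    obtain ⟨η, hη, he⟩ := hequi (ε / 2) (by linarith)
    refine ⟨η, hη, fun y' hy' hd => ?_⟩
    rw [dist_eq_norm] at hd
    have a1 := he y hy y' hy' hd
    have a2 := he y' hy' y hy (by rw [norm_sub_rev]; exact hd)
    rw [Real.dist_eq, abs_lt]
    constructor <;> linarith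
  have hup : PshOn (bal c r) u := by
    refine h2.1 (bal c r) ι (fun v => v.1) u inferInstance (O1_isOpen_bal c r) (fun v => v.2.1.2.1)
      (huc.mono (O1_bal_sub c r)) ?_
    intro x hx
    have hx' := O1_bal_sub c r hx
    constructor
    · rintro _ ⟨v, rfl⟩
      exact hle v x hx'
    · intro t ht
      exact hsup x hx' t (fun v => ht ⟨v, rfl⟩)
  have hbu : ∀ y ∈ cbal c r, b y ≤ u y := fun y hy => hle ⟨b, hbO, fun _ _ => le_rfl⟩ y hy
  have hus : ∀ y ∈ sph c r, u y ≤ b y := fun y hy =>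
    hsup y (O1_sph_sub c r hy) _ (fun v => v.2.1.2.2.2 y hy)
  refine ⟨u, ⟨huc, hup, fun y hy => hsup y hy _ (fun v => v.2.1.2.2.1 y hy), hus⟩, hbu,
    fun y hy => le_antisymm (hus y hy) (hbu y (O1_sph_sub c r hy)), ?_⟩
  intro v hv y hy
  have hm : (fun x => max (v x) (b x)) ∈ Obs b o c r := by
    refine ⟨ContinuousOn.sup hv.1 hbc, (h1 _ (O1_isOpen_bal c r) _ _ hv.2.1 hbp).1, ?_, ?_⟩
    · intro z hz
      exact max_le (hv.2.2.1 z hz) (hbo z hz)
    · intro z hz
      exact max_le (hv.2.2.2 z hz) le_rfl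
  have := hle ⟨_, hm, fun z _ => le_max_right _ _⟩ y hy
  exact (le_max_left _ _).trans this

end

end MAP
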